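import Pool.Agent.H85.Scale3

set_option autoImplicit false

namespace Pool.Agent.Results.MP_c74059_gt.ProdHurewicz

open Pool.Agent.H85.CovDefs

universe u

/-- Under CH there is a productively Hurewicz subspace of the Cantor space which is not
productively Menger. -/
theorem result (hCH : Cardinal.continuum.{0} = Cardinal.aleph 1) : ∃ X : Set (ℕ → Bool),
    (∀ (Z : Type u) [TopologicalSpace Z], Hurewicz Z → Hurewicz (X × Z)) ∧
      ∃ M : Set (ℕ → ℕ), Menger M ∧ ¬ Menger (X × M) :=
  Pool.Agent.H85.Scale3.main hCH

end Pool.Agent.Results.MP_c74059_gt.ProdHurewicz
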